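import Pool.Agent.Lib_helper44.G4.Basic
import Pool.Agent.Lib_helper44.G5.Defs
import Pool.Agent.Lib_helper44.G5.MSW

/-!
# FAMT
-/

namespace Pool.Agent.G5

open Pool.Agent.G4

open Complex MeasureTheory Filter Topology

/-- the weighted square is integrable -/
theorem famt_int {N Q : ℕ} {E : Fm} (hE : Fam N E) {x : Ix} (hx : x ∈ pairs N Q) :
    Integrable (fun u : ℝ => ‖E x u‖ ^ 2) := by
  obtain ⟨_, h2, h3⟩ := bas_mem_pairs.mp hx
  obtain ⟨C, hC⟩ := hE.dec x h2 h3 1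
  have hi : Integrable (fun v : ℝ => C ^ 2 * Real.exp (-2 * |v|)) :=
    (msw_exp_abs (by norm_num : (0 : ℝ) < 2)).1.const_mul _
  refine hi.mono' ((hE.cont x).norm.pow 2).aestronglyMeasurable
    (Eventually.of_forall fun u => ?_)
  rw [Real.norm_of_nonneg (by positivity)]
  calc ‖E x u‖ ^ 2 ≤ (C * Real.exp (-1 * |u|)) ^ 2 :=
        pow_le_pow_left₀ (norm_nonneg _) (hC u) 2
    _ = _ := by
        rw [mul_pow, ← Real.exp_nat_mul]
        congr 2
        push_cast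
        ring

/-- a bounded weight -/
theorem famt_wint {N Q : ℕ} {E : Fm} (hE : Fam N E) {x : Ix} (hx : x ∈ pairs N Q) :
    Integrable (fun u : ℝ => ‖E x u‖ ^ 2 / (1 + u ^ 2)) := by
  refine (famt_int hE hx).mono' ?_ (Eventually.of_forall fun u => ?_)
  · exact (((hE.cont x).norm.pow 2).div (by fun_prop : Continuous fun u : ℝ => 1 + u ^ 2)
      fun u => by positivity).aestronglyMeasurable
  · rw [Real.norm_of_nonneg (by positivity)]
    exact div_le_self (by positivity) (by nlinarith [sq_nonneg u])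

/-- the shift -/
theorem famt_shift {N : ℕ} {E : Fm} (hE : Fam N E) (g : Ix → ℂ) {G : ℝ} (hG : 0 ≤ G)
    (hg : ∀ x, ‖g x‖ ≤ G) (s : ℝ) : Fam N (fun x u => E x u - g x * E x (u + s)) where
  cont x := (hE.cont x).sub (continuous_const.mul ((hE.cont x).comp (by fun_prop)))
  dec := by
    intro x hx hp A
    obtain ⟨C, hC⟩ := hE.dec x hx hp A
    have hC0 : 0 ≤ C := by
      have := (norm_nonneg _).trans (hC 0)
      simpa using this
    refine ⟨C + G * (C * Real.exp (|A| * |s|)), fun u => ?_⟩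
    have h1 := hC (u + s)
    have h2 : Real.exp (-A * |u + s|) ≤ Real.exp (|A| * |s|) * Real.exp (-A * |u|) := by
      rw [← Real.exp_add]
      apply Real.exp_le_exp.mpr
      have h3 : |(|u + s| - |u|)| ≤ |s| := by
        have := abs_abs_sub_abs_le (u + s) u
        simpa using this
      have h4 : -A * (|u + s| - |u|) ≤ |A| * |s| := by
        refine (le_abs_self _).trans ?_
        rw [abs_mul, abs_neg]
        exact mul_le_mul_of_nonneg_left h3 (abs_nonneg A)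
      linarith
    have h5 : ‖g x * E x (u + s)‖ ≤ G * (C * (Real.exp (|A| * |s|) * Real.exp (-A * |u|))) := by
      rw [norm_mul]
      refine mul_le_mul (hg x) (h1.trans (mul_le_mul_of_nonneg_left h2 hC0)) (norm_nonneg _) hG
    calc ‖E x u - g x * E x (u + s)‖ ≤ ‖E x u‖ + ‖g x * E x (u + s)‖ := norm_sub_le _ _
      _ ≤ C * Real.exp (-A * |u|) +
          G * (C * (Real.exp (|A| * |s|) * Real.exp (-A * |u|))) := add_le_add (hC u) h5
      _ = _ := by ring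
  right := by
    obtain ⟨C, hC0, hC⟩ := hE.right
    refine ⟨C + G * (C * Real.exp (-2 * s)), by positivity, fun x u => ?_⟩
    have h1 := hC x (u + s)
    have h2 : Real.exp (-2 * (u + s)) = Real.exp (-2 * s) * Real.exp (-2 * u) := by
      rw [← Real.exp_add]
      congr 1
      ring
    rw [h2] at h1
    have h5 : ‖g x * E x (u + s)‖ ≤ G * (C * (Real.exp (-2 * s) * Real.exp (-2 * u))) := by
      rw [norm_mul]
      exact mul_le_mul (hg x) h1 (norm_nonneg _) hG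
    calc ‖E x u - g x * E x (u + s)‖ ≤ ‖E x u‖ + ‖g x * E x (u + s)‖ := norm_sub_le _ _
      _ ≤ C * Real.exp (-2 * u) + G * (C * (Real.exp (-2 * s) * Real.exp (-2 * u))) :=
          add_le_add (hC x u) h5
      _ = _ := by ring
  ms := by
    obtain ⟨C, hC0, hC⟩ := hE.ms
    refine ⟨2 * C + 2 * G ^ 2 * (2 * (1 + s ^ 2)) * C, by positivity, fun Q => ?_⟩
    have hx : ∀ x ∈ pairs N Q, ∫ u : ℝ, ‖E x u - g x * E x (u + s)‖ ^ 2 / (1 + u ^ 2) ≤
        (2 + 2 * G ^ 2 * (2 * (1 + s ^ 2))) * ∫ u : ℝ, ‖E x u‖ ^ 2 / (1 + u ^ 2) := by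
      intro x hx
      have hi := famt_wint hE hx
      have hi2 : Integrable (fun u : ℝ => ‖E x (u + s)‖ ^ 2 / (1 + (u + s) ^ 2)) :=
        hi.comp_add_right s
      have hle : ∀ u : ℝ, ‖E x u - g x * E x (u + s)‖ ^ 2 / (1 + u ^ 2) ≤
          2 * (‖E x u‖ ^ 2 / (1 + u ^ 2)) +
            2 * G ^ 2 * (2 * (1 + s ^ 2)) * (‖E x (u + s)‖ ^ 2 / (1 + (u + s) ^ 2)) := by
        intro u
        have h1 : ‖E x u - g x * E x (u + s)‖ ^ 2 ≤
            2 * ‖E x u‖ ^ 2 + 2 * G ^ 2 * ‖E x (u + s)‖ ^ 2 := by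
          have h2 : ‖E x u - g x * E x (u + s)‖ ≤ ‖E x u‖ + G * ‖E x (u + s)‖ := by
            refine (norm_sub_le _ _).trans ?_
            rw [norm_mul]
            have := mul_le_mul_of_nonneg_right (hg x) (norm_nonneg (E x (u + s)))
            linarith
          have h3 := pow_le_pow_left₀ (norm_nonneg _) h2 2
          nlinarith [sq_nonneg (‖E x u‖ - G * ‖E x (u + s)‖)]
        have h4 : ‖E x (u + s)‖ ^ 2 / (1 + u ^ 2) ≤
            2 * (1 + s ^ 2) * (‖E x (u + s)‖ ^ 2 / (1 + (u + s) ^ 2)) := by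
          rw [← mul_div_assoc, div_le_div_iff₀ (by positivity) (by positivity)]
          have h5 : 1 + (u + s) ^ 2 ≤ 2 * (1 + s ^ 2) * (1 + u ^ 2) := by
            nlinarith [sq_nonneg (u - s), sq_nonneg (u * s)]
          have h6 := mul_le_mul_of_nonneg_left h5 (sq_nonneg ‖E x (u + s)‖)
          nlinarith
        have h7 : ‖E x u - g x * E x (u + s)‖ ^ 2 / (1 + u ^ 2) ≤
            (2 * ‖E x u‖ ^ 2 + 2 * G ^ 2 * ‖E x (u + s)‖ ^ 2) / (1 + u ^ 2) := by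
          gcongr
        have h8 : (2 * ‖E x u‖ ^ 2 + 2 * G ^ 2 * ‖E x (u + s)‖ ^ 2) / (1 + u ^ 2) =
            2 * (‖E x u‖ ^ 2 / (1 + u ^ 2)) +
              2 * G ^ 2 * (‖E x (u + s)‖ ^ 2 / (1 + u ^ 2)) := by ring
        have h9 := mul_le_mul_of_nonneg_left h4 (by positivity : 0 ≤ 2 * G ^ 2)
        nlinarith
      have hR : Integrable (fun u : ℝ => 2 * (‖E x u‖ ^ 2 / (1 + u ^ 2)) +
            2 * G ^ 2 * (2 * (1 + s ^ 2)) * (‖E x (u + s)‖ ^ 2 / (1 + (u + s) ^ 2))) :=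
        (hi.const_mul 2).add (hi2.const_mul _)
      calc ∫ u : ℝ, ‖E x u - g x * E x (u + s)‖ ^ 2 / (1 + u ^ 2)
          ≤ ∫ u : ℝ, (2 * (‖E x u‖ ^ 2 / (1 + u ^ 2)) +
            2 * G ^ 2 * (2 * (1 + s ^ 2)) * (‖E x (u + s)‖ ^ 2 / (1 + (u + s) ^ 2))) := by
            refine integral_mono_of_nonneg (Eventually.of_forall fun u => ?_) hR
              (Eventually.of_forall hle)
            show 0 ≤ ‖E x u - g x * E x (u + s)‖ ^ 2 / (1 + u ^ 2)
            positivity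
        _ = 2 * (∫ u : ℝ, ‖E x u‖ ^ 2 / (1 + u ^ 2)) + 2 * G ^ 2 * (2 * (1 + s ^ 2)) *
            ∫ u : ℝ, ‖E x (u + s)‖ ^ 2 / (1 + (u + s) ^ 2) := by
            rw [integral_add (hi.const_mul 2) (hi2.const_mul _), integral_const_mul,
              integral_const_mul]
        _ = 2 * (∫ u : ℝ, ‖E x u‖ ^ 2 / (1 + u ^ 2)) + 2 * G ^ 2 * (2 * (1 + s ^ 2)) *
            ∫ u : ℝ, ‖E x u‖ ^ 2 / (1 + u ^ 2) := by
            rw [integral_add_right_eq_self (fun u : ℝ => ‖E x u‖ ^ 2 / (1 + u ^ 2)) s]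
        _ = _ := by ring
    calc ∑ x ∈ pairs N Q, ∫ u : ℝ, ‖E x u - g x * E x (u + s)‖ ^ 2 / (1 + u ^ 2)
        ≤ ∑ x ∈ pairs N Q, (2 + 2 * G ^ 2 * (2 * (1 + s ^ 2))) *
          ∫ u : ℝ, ‖E x u‖ ^ 2 / (1 + u ^ 2) := Finset.sum_le_sum hx
      _ = (2 + 2 * G ^ 2 * (2 * (1 + s ^ 2))) *
          ∑ x ∈ pairs N Q, ∫ u : ℝ, ‖E x u‖ ^ 2 / (1 + u ^ 2) := (Finset.mul_sum _ _ _).symm
      _ ≤ (2 + 2 * G ^ 2 * (2 * (1 + s ^ 2))) * (C * Q ^ 2) :=
          mul_le_mul_of_nonneg_left (hC Q) (by positivity)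
      _ = _ := by ring

/-- the transform of the shift -/
theorem famt_HE {N : ℕ} {E : Fm} (hE : Fam N E) (g : Ix → ℂ) (s : ℝ) {x : Ix}
    (hx : x.q.Coprime N) (hp : x.2.IsPrimitive) (z : ℂ) :
    HE (fun x u => E x u - g x * E x (u + s)) x z = (1 - g x * cexp (-(z * s))) * HE E x z := by
  obtain ⟨C, hC⟩ := hE.dec x hx hp (|z.re| + 1)
  have hC0 : 0 ≤ C := by
    have := (norm_nonneg _).trans (hC 0)
    simpa using this
  have hi : Integrable (fun u : ℝ => E x u * cexp (z * u)) := by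
    refine Integrable.mono' (lam_exp_int.const_mul C)
      ((hE.cont x).mul (by fun_prop)).aestronglyMeasurable (Eventually.of_forall fun u => ?_)
    rw [norm_mul]
    refine (mul_le_mul (hC u) (lam_norm_exp_le z u) (norm_nonneg _) (by positivity)).trans ?_
    rw [mul_assoc, ← Real.exp_add]
    refine mul_le_mul_of_nonneg_left (Real.exp_le_exp.mpr ?_) hC0
    nlinarith [abs_nonneg u]
  have hi2 : Integrable (fun u : ℝ => E x (u + s) * cexp (z * (u + s : ℝ))) :=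
    hi.comp_add_right s
  have h1 : ∀ u : ℝ, (E x u - g x * E x (u + s)) * cexp (z * u) =
      E x u * cexp (z * u) - g x * cexp (-(z * s)) * (E x (u + s) * cexp (z * (u + s : ℝ))) := by
    intro u
    have h2 : cexp (z * u) = cexp (-(z * s)) * cexp (z * (u + s : ℝ)) := by
      rw [← Complex.exp_add]
      congr 1
      push_cast
      ring
    rw [sub_mul]
    congr 1
    rw [h2]
    ring
  unfold HE
  simp_rw [h1]
  rw [integral_sub hi (hi2.const_mul _), integral_const_mul,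
    integral_add_right_eq_self (fun u : ℝ => E x u * cexp (z * u)) s]
  ring

theorem famt_g_le {c : ℂ} {x : Ix} {n : ℕ} :
    ‖c * ev x n * (((√(n : ℝ))⁻¹ : ℝ) : ℂ)‖ ≤ ‖c‖ * (√(n : ℝ))⁻¹ := by
  rw [norm_mul, norm_mul, Complex.norm_real, Real.norm_of_nonneg (by positivity)]
  have h1 := mul_le_mul_of_nonneg_left (bas_norm_ev_le x n) (norm_nonneg c)
  rw [mul_one] at h1
  exact mul_le_mul_of_nonneg_right h1 (by positivity)

/-- FAMT -/
theorem fam_opT_pr {N : ℕ} {E : Fm} (hE : Fam N E) {a : ℕ × ℂ} (_ha : 1 ≤ a.1) :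
    Fam N (opT a E) :=
  famt_shift hE (fun x => a.2 * ev x a.1 * (((√(a.1 : ℝ))⁻¹ : ℝ) : ℂ))
    (G := ‖a.2‖ * (√(a.1 : ℝ))⁻¹) (by positivity) (fun _ => famt_g_le) (Real.log a.1)

/-- FAMT -/
theorem fam_opU_pr {N : ℕ} {E : Fm} (hE : Fam N E) {a : ℕ × ℂ} (_ha : 1 ≤ a.1) :
    Fam N (opU a E) := by
  refine famt_shift hE (fun x => starRingEnd ℂ (a.2 * ev x a.1) * (((√(a.1 : ℝ))⁻¹ : ℝ) : ℂ))
    (G := ‖a.2‖ * (√(a.1 : ℝ))⁻¹) (by positivity) (fun x => ?_) (-Real.log a.1)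
  rw [norm_mul, RCLike.norm_conj, ← norm_mul]
  exact famt_g_le

theorem famt_cpow {n : ℕ} (hn : 1 ≤ n) (w : ℂ) :
    (((√(n : ℝ))⁻¹ : ℝ) : ℂ) * cexp (-(w * Real.log n)) = (n : ℂ) ^ (-(1 / 2 + w)) := by
  have hn0 : (n : ℂ) ≠ 0 := by exact_mod_cast (by omega : n ≠ 0)
  have hn1 : (0 : ℝ) < n := by exact_mod_cast hn
  have h1 : (((√(n : ℝ))⁻¹ : ℝ) : ℂ) = cexp (-(1 / 2 : ℂ) * Real.log n) := by
    rw [Real.sqrt_eq_rpow, ← Real.rpow_neg hn1.le, Real.rpow_def_of_pos hn1]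
    push_cast
    congr 1
    ring
  rw [h1, ← Complex.exp_add, Complex.cpow_def_of_ne_zero hn0, Complex.natCast_log]
  congr 1
  ring

/-- FAMT: transform -/
theorem HE_opT_pr {N : ℕ} {E : Fm} (hE : Fam N E) {a : ℕ × ℂ} (ha : 1 ≤ a.1) {x : Ix}
    (hx : x.q.Coprime N) (hp : x.2.IsPrimitive) (z : ℂ) :
    HE (opT a E) x z = (1 - a.2 * (ev x a.1 * (a.1 : ℂ) ^ (-(1 / 2 + z)))) * HE E x z := by
  have h1 := famt_HE hE (fun x => a.2 * ev x a.1 * (((√(a.1 : ℝ))⁻¹ : ℝ) : ℂ))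
    (Real.log a.1) hx hp z
  refine h1.trans ?_
  rw [← famt_cpow ha z]
  ring

/-- FAMT: transform -/
theorem HE_opU_pr {N : ℕ} {E : Fm} (hE : Fam N E) {a : ℕ × ℂ} (ha : 1 ≤ a.1) {x : Ix}
    (hx : x.q.Coprime N) (hp : x.2.IsPrimitive) (z : ℂ) :
    HE (opU a E) x z =
      (1 - starRingEnd ℂ (a.2 * ev x a.1) * (a.1 : ℂ) ^ (-(1 / 2 - z))) * HE E x z := by
  have h1 := famt_HE hE
    (fun x => starRingEnd ℂ (a.2 * ev x a.1) * (((√(a.1 : ℝ))⁻¹ : ℝ) : ℂ))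
    (-Real.log a.1) hx hp z
  refine h1.trans ?_
  have h2 := famt_cpow ha (-z)
  rw [show -(1 / 2 - z) = -(1 / 2 + -z) by ring, ← h2]
  have h3 : -(z * ((-Real.log a.1 : ℝ) : ℂ)) = -(-z * (Real.log a.1 : ℝ)) := by
    push_cast
    ring
  rw [h3]
  ring

end Pool.Agent.G5
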