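import Pool.Agent.Lib_helper24.G5.UNI
import Pool.Agent.Lib_helper44.G5.Defs
import Pool.Agent.Lib_helper44.G5.MSW
import Pool.Agent.Lib_helper93.G4.CNT

/-!
# SMR
-/

namespace Pool.Agent.G5

open Pool.Agent.G4

open Complex MeasureTheory Filter Topology

variable {m : ℕ}

/-- the coefficients below `Y` -/
noncomputable def smr_cut (b : ℕ → ℂ) (Y : ℕ) : ℕ → ℂ := fun n => if n < Y then b n else 0

/-- the coefficients from `Y` on -/
noncomputable def smr_rest (b : ℕ → ℂ) (Y : ℕ) : ℕ → ℂ := fun n => if n < Y then 0 else b n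

theorem smr_rsb_mono {b c : ℕ → ℂ} {Cb : ℝ} (hb : RSB b Cb) (h : ∀ n, ‖c n‖ ≤ ‖b n‖) :
    RSB c Cb := fun x => (Finset.sum_le_sum fun n _ =>
      pow_le_pow_left₀ (norm_nonneg _) (h n) 2).trans (hb x)

theorem smr_cut_le (b : ℕ → ℂ) (Y n : ℕ) : ‖smr_cut b Y n‖ ≤ ‖b n‖ := by
  unfold smr_cut
  split_ifs
  · exact le_rfl
  · simp

theorem smr_rest_le (b : ℕ → ℂ) (Y n : ℕ) : ‖smr_rest b Y n‖ ≤ ‖b n‖ := by
  unfold smr_rest
  split_ifs
  · simp
  · exact le_rfl

theorem smr_summable {κ : ℝ} (hκ : 0 < κ) {K : ℝ → ℂ} (hK : IsKer κ K) {b : ℕ → ℂ} {Cb : ℝ}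
    (hb : RSB b Cb) (x : Ix) (u : ℝ) :
    Summable fun n : ℕ => b n * ev x n * (((√(n : ℝ))⁻¹ : ℝ) : ℂ) * K (u + Real.log n) := by
  refine Summable.of_norm_bounded (db_summable_pr hκ hK hb u) fun n => ?_
  rcases Nat.eq_zero_or_pos n with h0 | h0
  · subst h0
    simp
  · have h1 : (1 : ℝ) ≤ n := by exact_mod_cast h0
    have h2 : ‖b n * ev x n * (((√(n : ℝ))⁻¹ : ℝ) : ℂ) * K (u + Real.log n)‖ ≤
        ‖b n‖ * (√(n : ℝ))⁻¹ * ‖K (u + Real.log n)‖ := by
      rw [norm_mul, norm_mul, norm_mul, Complex.norm_real, Real.norm_of_nonneg (by positivity)]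
      have h3 := mul_le_mul_of_nonneg_left (DB_ev x n) (norm_nonneg (b n))
      rw [mul_one] at h3
      gcongr
    refine h2.trans ?_
    exact le_mul_of_one_le_left (by positivity) h1

theorem smr_split {κ : ℝ} (hκ : 0 < κ) {K : ℝ → ℂ} (hK : IsKer κ K) {b : ℕ → ℂ} {Cb : ℝ}
    (hb : RSB b Cb) (Y : ℕ) (x : Ix) (u : ℝ) :
    D b K x u = D (smr_cut b Y) K x u + D (smr_rest b Y) K x u := by
  unfold D
  rw [← (smr_summable hκ hK (smr_rsb_mono hb (smr_cut_le b Y)) x u).tsum_add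
    (smr_summable hκ hK (smr_rsb_mono hb (smr_rest_le b Y)) x u)]
  congr 1
  funext n
  unfold smr_cut smr_rest
  split_ifs <;> ring

/-- the tail has a small constant -/
theorem smr_tail {b : ℕ → ℂ} (hs : Summable fun n : ℕ => ‖b n‖ ^ 2 / n) {ε : ℝ} (hε : 0 < ε) :
    ∃ Y : ℕ, RSB (smr_rest b Y) ε := by
  have hlim := hs.hasSum.tendsto_sum_nat
  obtain ⟨Y, hY⟩ := (hlim.eventually (lt_mem_nhds
    (show (∑' n : ℕ, ‖b n‖ ^ 2 / n) - ε < ∑' n : ℕ, ‖b n‖ ^ 2 / n by linarith))).exists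
  refine ⟨Y, fun x => ?_⟩
  have h1 : ∑ n ∈ Finset.range Y, ‖b n‖ ^ 2 / n + ∑ n ∈ (Finset.Icc 1 x).filter (fun n => ¬ n < Y),
      ‖b n‖ ^ 2 / n ≤ ∑' n : ℕ, ‖b n‖ ^ 2 / (n : ℝ) := by
    rw [← Finset.sum_union]
    · exact hs.sum_le_tsum _ fun n _ => by positivity
    · rw [Finset.disjoint_left]
      intro n hn hn2
      exact (Finset.mem_filter.1 hn2).2 (Finset.mem_range.1 hn)
  have h2 : ∑ n ∈ Finset.Icc 1 x, ‖smr_rest b Y n‖ ^ 2 =
      ∑ n ∈ (Finset.Icc 1 x).filter (fun n => ¬ n < Y), ‖b n‖ ^ 2 := by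
    rw [Finset.sum_filter]
    refine Finset.sum_congr rfl fun n _ => ?_
    unfold smr_rest
    split_ifs <;> simp
  rw [h2]
  calc ∑ n ∈ (Finset.Icc 1 x).filter (fun n => ¬ n < Y), ‖b n‖ ^ 2
      ≤ ∑ n ∈ (Finset.Icc 1 x).filter (fun n => ¬ n < Y), (‖b n‖ ^ 2 / n) * x := by
        refine Finset.sum_le_sum fun n hn => ?_
        have h3 := Finset.mem_Icc.1 (Finset.mem_filter.1 hn).1
        have h4 : (0 : ℝ) < n := by exact_mod_cast h3.1
        have h5 : (n : ℝ) ≤ x := by exact_mod_cast h3.2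
        rw [div_mul_eq_mul_div, le_div_iff₀ h4]
        exact mul_le_mul_of_nonneg_left h5 (by positivity)
    _ = (∑ n ∈ (Finset.Icc 1 x).filter (fun n => ¬ n < Y), ‖b n‖ ^ 2 / n) * x :=
        (Finset.sum_mul _ _ _).symm
    _ ≤ ε * x := mul_le_mul_of_nonneg_right (by linarith) (Nat.cast_nonneg x)

/-- the finite part -/
theorem smr_fin {κ : ℝ} (hκ : 0 < κ) {K : ℝ → ℂ} (hK : IsKer κ K) (b : ℕ → ℂ) (Y : ℕ) :
    ∃ C : ℝ, 0 ≤ C ∧ ∀ (x : Ix) (u : ℝ), ‖D (smr_cut b Y) K x u‖ ^ 2 ≤ C ∧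
      ‖D (smr_cut b Y) K x u‖ ^ 2 ≤ C * Real.exp (κ * u) := by
  have h0 : ∀ A : ℝ, -κ < A → ∃ C : ℝ, 0 ≤ C ∧ ∀ (x : Ix) (u : ℝ),
      ‖D (smr_cut b Y) K x u‖ ≤ C * Real.exp (-A * u) := by
    intro A hA
    obtain ⟨C, hC⟩ := hK.le A hA
    have hC0 : 0 ≤ C := by
      have := (norm_nonneg _).trans (hC 0)
      simpa using this
    refine ⟨∑ n ∈ Finset.range Y, ‖b n‖ * (√(n : ℝ))⁻¹ * (C * Real.exp (-A * Real.log n)),
      by positivity, fun x u => ?_⟩
    unfold D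
    rw [tsum_eq_sum (s := Finset.range Y) fun n hn => by
      rw [Finset.mem_range] at hn
      unfold smr_cut
      rw [if_neg hn]
      ring]
    rw [Finset.sum_mul]
    refine (norm_sum_le _ _).trans (Finset.sum_le_sum fun n _ => ?_)
    rw [norm_mul, norm_mul, norm_mul, Complex.norm_real, Real.norm_of_nonneg (by positivity)]
    have h1 := hC (u + Real.log n)
    have h2 : Real.exp (-A * (u + Real.log n)) =
        Real.exp (-A * Real.log n) * Real.exp (-A * u) := by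
      rw [← Real.exp_add]
      congr 1
      ring
    rw [h2] at h1
    calc ‖smr_cut b Y n‖ * ‖ev x n‖ * (√(n : ℝ))⁻¹ * ‖K (u + Real.log n)‖
        ≤ ‖b n‖ * 1 * (√(n : ℝ))⁻¹ *
          (C * (Real.exp (-A * Real.log n) * Real.exp (-A * u))) := by
          gcongr
          · exact smr_cut_le b Y n
          · exact DB_ev x n
      _ = _ := by ring
  obtain ⟨C₀, hC₀, h1⟩ := h0 0 (by linarith)
  obtain ⟨C₁, hC₁, h2⟩ := h0 (-κ / 2) (by linarith)
  refine ⟨C₀ ^ 2 + C₁ ^ 2, by positivity, fun x u => ⟨?_, ?_⟩⟩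
  · have h3 := pow_le_pow_left₀ (norm_nonneg _) (h1 x u) 2
    simp only [neg_zero, zero_mul, Real.exp_zero, mul_one] at h3
    nlinarith [sq_nonneg C₁]
  · have h3 := pow_le_pow_left₀ (norm_nonneg _) (h2 x u) 2
    rw [mul_pow, ← Real.exp_nat_mul] at h3
    have h4 : ((2 : ℕ) : ℝ) * (-(-κ / 2) * u) = κ * u := by
      push_cast
      ring
    rw [h4] at h3
    have h5 := mul_nonneg (sq_nonneg C₀) (Real.exp_pos (κ * u)).le
    linarith

/-- the weight -/
theorem smr_weight {κ : ℝ} (hκ : 0 < κ) : Tendsto (fun L : ℝ => ∫ v : ℝ,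
    min 1 (Real.exp (κ * v)) * (1 / (1 + (v + L) ^ 2))) atTop (𝓝 0) := by
  have h0 : (0 : ℝ) = ∫ _ : ℝ, (0 : ℝ) := by simp
  rw [h0]
  refine tendsto_integral_filter_of_dominated_convergence
    (fun v => 1 / (1 + (v + 0) ^ 2) + Real.exp (-κ * |v|)) ?_ ?_ ?_ ?_
  · refine Eventually.of_forall fun L => Continuous.aestronglyMeasurable ?_
    refine (continuous_const.min (by fun_prop)).mul ?_
    exact continuous_const.div (by fun_prop) fun v => by positivity
  · filter_upwards [eventually_ge_atTop 0] with L hL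
    refine Eventually.of_forall fun v => ?_
    have hmin : 0 ≤ min 1 (Real.exp (κ * v)) := le_min zero_le_one (Real.exp_pos _).le
    rw [Real.norm_of_nonneg (by positivity)]
    rcases le_total 0 v with hv | hv
    · have h1 : min 1 (Real.exp (κ * v)) * (1 / (1 + (v + L) ^ 2)) ≤
          1 * (1 / (1 + (v + 0) ^ 2)) := by
        gcongr
        exact min_le_left _ _
      have h2 := (Real.exp_pos (-κ * |v|)).le
      linarith
    · have h1 : min 1 (Real.exp (κ * v)) * (1 / (1 + (v + L) ^ 2)) ≤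
          Real.exp (-κ * |v|) * 1 := by
        refine mul_le_mul ?_ ?_ (by positivity) (by positivity)
        · rw [abs_of_nonpos hv, neg_mul_neg]
          exact min_le_right _ _
        · rw [div_le_one (by positivity)]
          nlinarith [sq_nonneg (v + L)]
      have h2 : 0 ≤ 1 / (1 + (v + 0) ^ 2) := by positivity
      linarith
  · exact (msw_cauchy 0).1.add (msw_exp_abs hκ).1
  · refine Eventually.of_forall fun v => ?_
    have h1 : Tendsto (fun L : ℝ => 1 + (v + L) ^ 2) atTop atTop := by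
      refine tendsto_atTop_add_const_left _ _ ?_
      exact (tendsto_pow_atTop (by norm_num)).comp (tendsto_atTop_add_const_left _ _ tendsto_id)
    have h2 : Tendsto (fun L : ℝ => 1 / (1 + (v + L) ^ 2)) atTop (𝓝 0) := by
      simp_rw [one_div]
      exact tendsto_inv_atTop_zero.comp h1
    have h3 := h2.const_mul (min 1 (Real.exp (κ * v)))
    rw [mul_zero] at h3
    exact h3

theorem smr_ellQ_tendsto {S : Sys m} (hm1 : 1 ≤ m) :
    Tendsto (fun Q : ℕ => ellQ S Q) atTop atTop := by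
  unfold ellQ
  have h2 : Tendsto (fun Q : ℕ => (m : ℝ) * Real.log (Q : ℝ)) atTop atTop := by
    refine Tendsto.const_mul_atTop (by exact_mod_cast hm1) ?_
    exact Real.tendsto_log_atTop.comp tendsto_natCast_atTop_atTop
  exact (tendsto_atTop_add_const_left _ _ h2).atTop_div_const (by norm_num)

theorem smr_card (N Q : ℕ) : ((pairs N Q).card : ℝ) ≤ Q ^ 2 := by
  have h := card_pairs_dvd_pr N Q 1 one_pos
  simpa using h

theorem smr_ell_diff {S : Sys m} (hm : m ≤ 4) {Q : ℕ} {x : Ix} (hx : x ∈ pairs S.N Q)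
    (hq : Q < 2 * x.q) : ellQ S Q ≤ ell S x + 2 := by
  have hQpos : 0 < Q := by
    have := (msw_mem.mp hx).1
    omega
  unfold ell ellQ
  have h1 : Real.log (Q : ℝ) ≤ Real.log 2 + Real.log ((x.1 + 2 : ℕ) : ℝ) := by
    rw [← Real.log_mul (by norm_num) (by positivity)]
    refine Real.log_le_log (by exact_mod_cast hQpos) ?_
    have h2 : Q ≤ 2 * (x.1 + 2) := by
      have : x.q = x.1 + 2 := rfl
      omega
    exact_mod_cast h2
  have h2 : Real.log 2 ≤ 1 := by
    have := Real.log_two_lt_d9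
    linarith
  have h3 : (m : ℝ) ≤ 4 := by exact_mod_cast hm
  have h4 : (m : ℝ) * Real.log Q ≤ m * (Real.log 2 + Real.log ((x.1 + 2 : ℕ) : ℝ)) :=
    mul_le_mul_of_nonneg_left h1 (Nat.cast_nonneg m)
  have h5 : (m : ℝ) * Real.log 2 ≤ 4 * 1 :=
    mul_le_mul h3 h2 (Real.log_nonneg (by norm_num)) (by norm_num)
  linarith

/-- the kernel family has bounded right part -/
theorem smr_wint {S : Sys m} (k : Kers S) {b : ℕ → ℂ} {Cb : ℝ} (hb : RSB b Cb) (x : Ix)
    {w : ℝ → ℝ} (hw : Measurable w) (hw0 : ∀ v, 0 ≤ w v) (hwi : Integrable w) {c : ℝ}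
    (hc : ∀ v, v ≤ c → w v = 0) :
    Integrable (fun v : ℝ => w v * ‖D b (k.K (par x.2)) x v‖ ^ 2) := by
  obtain ⟨C, hC0, hC⟩ := db_bound_pr k.κ_pos (k.isKer (par x.2)) Cb (A := 1) (by norm_num)
  have hcont := db_cont_pr k.κ_pos (k.isKer (par x.2)) hb x
  refine (hwi.mul_const ((C * Real.exp (-1 * c)) ^ 2)).mono' ?_ (Eventually.of_forall fun v => ?_)
  · exact hw.aestronglyMeasurable.mul (hcont.norm.pow 2).aestronglyMeasurable
  · rw [Real.norm_of_nonneg (mul_nonneg (hw0 v) (by positivity))]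
    rcases le_or_gt v c with hv | hv
    · rw [hc v hv, zero_mul, zero_mul]
    · refine mul_le_mul_of_nonneg_left (pow_le_pow_left₀ (norm_nonneg _) ?_ 2) (hw0 v)
      refine (hC b hb x v).trans (mul_le_mul_of_nonneg_left (Real.exp_le_exp.mpr ?_) hC0)
      linarith

/-- SMR: the dyadic block -/
theorem smr_block {S : Sys m} (hm1 : 1 ≤ m) (hm : m ≤ 4) (k : Kers S) {b : ℕ → ℂ} {Cb : ℝ}
    (hb : RSB b Cb) (hs : Summable fun n : ℕ => ‖b n‖ ^ 2 / n) {s : ℝ} (hs0 : 0 ≤ s) {ε : ℝ}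
    (hε : 0 < ε) : ∃ Q₁ : ℕ, ∀ Q : ℕ, Q₁ ≤ Q →
      ∑ x ∈ (pairs S.N Q).filter (fun x => Q < 2 * x.q),
        ∫ u in Set.Ioi (0 : ℝ), ‖D b (k.K (par x.2)) x (u - ell S x - s)‖ ^ 2 / (1 + u ^ 2) ≤
          ε * Q ^ 2 := by
  obtain ⟨CU, hCU, hU⟩ := ms_uni_pr hm k s
  set Cs : ℝ := 2 * (1 + (2 + s) ^ 2) with hCs
  have hCs0 : 0 < Cs := by positivity
  -- the tail
  obtain ⟨Y, hY⟩ := smr_tail hs (ε := ε / (4 * Cs * (CU + 1) * Real.pi)) (by positivity)
  set εY : ℝ := ε / (4 * Cs * (CU + 1) * Real.pi) with hεY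
  have hεY0 : 0 < εY := by positivity
  -- the finite part
  obtain ⟨C₀, hC₀, hF₀⟩ := smr_fin k.κ_pos (k.isKer 0) b Y
  obtain ⟨C₁, hC₁, hF₁⟩ := smr_fin k.κ_pos (k.isKer 1) b Y
  set CY : ℝ := C₀ + C₁ with hCY
  have hCY0 : 0 ≤ CY := by positivity
  have hF : ∀ (x : Ix) (u : ℝ), ‖D (smr_cut b Y) (k.K (par x.2)) x u‖ ^ 2 ≤
      CY * min 1 (Real.exp (k.κ * u)) := by
    intro x u
    have h3 : par x.2 = 0 ∨ par x.2 = 1 := by
      unfold par
      split_ifs
      · exact Or.inr rfl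
      · exact Or.inl rfl
    have hE := (Real.exp_pos (k.κ * u)).le
    rcases h3 with h3 | h3
    · rw [h3]
      obtain ⟨h4, h5⟩ := hF₀ x u
      have h6 := mul_nonneg hC₁ hE
      rcases min_choice 1 (Real.exp (k.κ * u)) with h7 | h7
      · rw [h7, mul_one]
        linarith
      · rw [h7, hCY, add_mul]
        linarith
    · rw [h3]
      obtain ⟨h4, h5⟩ := hF₁ x u
      have h6 := mul_nonneg hC₀ hE
      rcases min_choice 1 (Real.exp (k.κ * u)) with h7 | h7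
      · rw [h7, mul_one]
        linarith
      · rw [h7, hCY, add_mul]
        linarith
  -- large conductors
  have hlim : Tendsto (fun Q : ℕ => 2 * Cs * CY * ∫ v : ℝ,
      min 1 (Real.exp (k.κ * v)) * (1 / (1 + (v + ellQ S Q) ^ 2))) atTop (𝓝 0) := by
    have h1 := ((smr_weight k.κ_pos).comp (smr_ellQ_tendsto (S := S) hm1)).const_mul (2 * Cs * CY)
    rw [mul_zero] at h1
    exact h1
  obtain ⟨Q₁, hQ₁⟩ := (hlim.eventually (gt_mem_nhds
    (show (0 : ℝ) < ε / 2 by positivity))).exists_forall_of_atTop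
  refine ⟨Q₁, fun Q hQ => ?_⟩
  have hsmall := (hQ₁ Q hQ).le
  -- the weight
  set w : ℝ → ℝ := fun v => if -ellQ S Q - s < v then Cs * (1 / (1 + (v + ellQ S Q) ^ 2)) else 0
    with hw
  have hwm : Measurable w := by
    rw [hw]
    exact Measurable.ite measurableSet_Ioi (by fun_prop) measurable_const
  have hw0 : ∀ v, 0 ≤ w v := by
    intro v
    simp only [hw]
    split_ifs
    · positivity
    · exact le_rfl
  have hwle : ∀ v, w v ≤ Cs * (1 / (1 + (v + ellQ S Q) ^ 2)) := by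
    intro v
    simp only [hw]
    split_ifs
    · exact le_rfl
    · positivity
  have hwi : Integrable w := by
    refine ((msw_cauchy (ellQ S Q)).1.const_mul Cs).mono' hwm.aestronglyMeasurable
      (Eventually.of_forall fun v => ?_)
    rw [Real.norm_of_nonneg (hw0 v)]
    exact hwle v
  have hwint : ∫ v, w v ≤ Cs * Real.pi := by
    calc ∫ v, w v ≤ ∫ v, Cs * (1 / (1 + (v + ellQ S Q) ^ 2)) :=
          integral_mono hwi ((msw_cauchy (ellQ S Q)).1.const_mul Cs) hwle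
      _ = _ := by rw [integral_const_mul, (msw_cauchy _).2]
  have hwc : ∀ v, v ≤ -ellQ S Q - s → w v = 0 := by
    intro v hv
    simp only [hw]
    rw [if_neg (not_lt.2 hv)]
  have hbc := smr_rsb_mono hb (smr_cut_le b Y)
  have hbr := smr_rsb_mono hb (smr_rest_le b Y)
  have hi1 : ∀ x, Integrable (fun v : ℝ => w v * ‖D (smr_cut b Y) (k.K (par x.2)) x v‖ ^ 2) :=
    fun x => smr_wint k hbc x hwm hw0 hwi hwc
  have hi2 : ∀ x, Integrable (fun v : ℝ => w v * ‖D (smr_rest b Y) (k.K (par x.2)) x v‖ ^ 2) :=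
    fun x => smr_wint k hbr x hwm hw0 hwi hwc
  -- one character
  have hx : ∀ x ∈ (pairs S.N Q).filter (fun x => Q < 2 * x.q),
      ∫ u in Set.Ioi (0 : ℝ), ‖D b (k.K (par x.2)) x (u - ell S x - s)‖ ^ 2 / (1 + u ^ 2) ≤
        2 * (∫ v : ℝ, w v * ‖D (smr_cut b Y) (k.K (par x.2)) x v‖ ^ 2) +
          2 * ∫ v : ℝ, w v * ‖D (smr_rest b Y) (k.K (par x.2)) x v‖ ^ 2 := by
    intro x hxf
    obtain ⟨hx, hq⟩ := Finset.mem_filter.mp hxf
    have hlQ := msw_ell_le S hx
    have hdiff := smr_ell_diff hm hx hq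
    rw [← integral_indicator measurableSet_Ioi]
    rw [← integral_add_right_eq_self (fun u : ℝ => (Set.Ioi (0 : ℝ)).indicator
      (fun u => ‖D b (k.K (par x.2)) x (u - ell S x - s)‖ ^ 2 / (1 + u ^ 2)) u) (ell S x + s)]
    rw [← integral_const_mul, ← integral_const_mul, ← integral_add ((hi1 x).const_mul 2)
      ((hi2 x).const_mul 2)]
    refine integral_mono_of_nonneg (Eventually.of_forall fun v => ?_)
      (((hi1 x).const_mul 2).add ((hi2 x).const_mul 2)) (Eventually.of_forall fun v => ?_)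
    · simp only [Set.indicator]
      split_ifs
      · show (0 : ℝ) ≤ _
        positivity
      · exact le_rfl
    · simp only [Set.indicator]
      split_ifs with hv
      · rw [Set.mem_Ioi] at hv
        have hw1 : w v = Cs * (1 / (1 + (v + ellQ S Q) ^ 2)) := by
          simp only [hw]
          rw [if_pos (by linarith)]
        have hE : v + (ell S x + s) - ell S x - s = v := by ring
        rw [hE]
        have h1 : ‖D b (k.K (par x.2)) x v‖ ^ 2 ≤
            2 * ‖D (smr_cut b Y) (k.K (par x.2)) x v‖ ^ 2 +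
              2 * ‖D (smr_rest b Y) (k.K (par x.2)) x v‖ ^ 2 := by
          rw [smr_split k.κ_pos (k.isKer (par x.2)) hb Y x v]
          have h2 := norm_add_le (D (smr_cut b Y) (k.K (par x.2)) x v)
            (D (smr_rest b Y) (k.K (par x.2)) x v)
          have h3 := pow_le_pow_left₀ (norm_nonneg _) h2 2
          nlinarith [sq_nonneg (‖D (smr_cut b Y) (k.K (par x.2)) x v‖ -
            ‖D (smr_rest b Y) (k.K (par x.2)) x v‖)]
        have h4 : 1 / (1 + (v + (ell S x + s)) ^ 2) ≤ w v := by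
          rw [hw1, ← mul_div_assoc, mul_one, div_le_div_iff₀ (by positivity) (by positivity)]
          have h5 : (ellQ S Q - ell S x - s) ^ 2 ≤ (2 + s) ^ 2 := by
            have h6 : ellQ S Q - ell S x - s ≤ 2 + s := by linarith
            have h7 : -(2 + s) ≤ ellQ S Q - ell S x - s := by linarith
            exact sq_le_sq' h7 h6
          have h8 : v + ellQ S Q = (v + (ell S x + s)) + (ellQ S Q - ell S x - s) := by ring
          rw [h8, hCs]
          set a := v + (ell S x + s)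
          set d := ellQ S Q - ell S x - s
          nlinarith [sq_nonneg (a - d), sq_nonneg (a * d),
            mul_nonneg (sq_nonneg a) (sub_nonneg.2 h5)]
        calc ‖D b (k.K (par x.2)) x v‖ ^ 2 / (1 + (v + (ell S x + s)) ^ 2)
            = 1 / (1 + (v + (ell S x + s)) ^ 2) * ‖D b (k.K (par x.2)) x v‖ ^ 2 := by ring
          _ ≤ w v * (2 * ‖D (smr_cut b Y) (k.K (par x.2)) x v‖ ^ 2 +
              2 * ‖D (smr_rest b Y) (k.K (par x.2)) x v‖ ^ 2) :=
              mul_le_mul h4 h1 (by positivity) (hw0 v)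
          _ = _ := by ring
      · have h1 := hw0 v
        show (0 : ℝ) ≤ _
        positivity
  -- the finite part
  have hsum1 : ∑ x ∈ pairs S.N Q, (∫ v : ℝ, w v * ‖D (smr_cut b Y) (k.K (par x.2)) x v‖ ^ 2) ≤
      Q ^ 2 * (Cs * CY * ∫ v : ℝ,
        min 1 (Real.exp (k.κ * v)) * (1 / (1 + (v + ellQ S Q) ^ 2))) := by
    have hint : Integrable (fun v : ℝ =>
        min 1 (Real.exp (k.κ * v)) * (1 / (1 + (v + ellQ S Q) ^ 2))) := by
      refine (msw_cauchy (ellQ S Q)).1.mono' ?_ (Eventually.of_forall fun v => ?_)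
      · refine Continuous.aestronglyMeasurable ?_
        refine (continuous_const.min (by fun_prop)).mul ?_
        exact continuous_const.div (by fun_prop) fun v => by positivity
      · have hmin : 0 ≤ min 1 (Real.exp (k.κ * v)) := le_min zero_le_one (Real.exp_pos _).le
        rw [Real.norm_of_nonneg (by positivity)]
        exact mul_le_of_le_one_left (by positivity) (min_le_left _ _)
    have hone : ∀ x : Ix, (∫ v : ℝ, w v * ‖D (smr_cut b Y) (k.K (par x.2)) x v‖ ^ 2) ≤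
        Cs * CY * ∫ v : ℝ, min 1 (Real.exp (k.κ * v)) * (1 / (1 + (v + ellQ S Q) ^ 2)) := by
      intro x
      rw [← integral_const_mul]
      refine integral_mono (hi1 x) (hint.const_mul _) fun v => ?_
      calc w v * ‖D (smr_cut b Y) (k.K (par x.2)) x v‖ ^ 2
          ≤ (Cs * (1 / (1 + (v + ellQ S Q) ^ 2))) * (CY * min 1 (Real.exp (k.κ * v))) :=
            mul_le_mul (hwle v) (hF x v) (by positivity) (by positivity)
        _ = _ := by ring
    have hnn : 0 ≤ Cs * CY * ∫ v : ℝ,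
        min 1 (Real.exp (k.κ * v)) * (1 / (1 + (v + ellQ S Q) ^ 2)) := by
      refine mul_nonneg (by positivity) (integral_nonneg fun v => ?_)
      have hmin : 0 ≤ min 1 (Real.exp (k.κ * v)) := le_min zero_le_one (Real.exp_pos _).le
      show (0 : ℝ) ≤ _
      positivity
    calc ∑ x ∈ pairs S.N Q, (∫ v : ℝ, w v * ‖D (smr_cut b Y) (k.K (par x.2)) x v‖ ^ 2)
        ≤ ∑ x ∈ pairs S.N Q, Cs * CY * ∫ v : ℝ,
          min 1 (Real.exp (k.κ * v)) * (1 / (1 + (v + ellQ S Q) ^ 2)) :=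
          Finset.sum_le_sum fun x _ => hone x
      _ = (pairs S.N Q).card * (Cs * CY * ∫ v : ℝ,
          min 1 (Real.exp (k.κ * v)) * (1 / (1 + (v + ellQ S Q) ^ 2))) := by
          rw [Finset.sum_const, nsmul_eq_mul]
      _ ≤ _ := mul_le_mul_of_nonneg_right (smr_card _ _) hnn
  -- the tail
  have hsum2 : ∑ x ∈ pairs S.N Q, (∫ v : ℝ, w v * ‖D (smr_rest b Y) (k.K (par x.2)) x v‖ ^ 2) ≤
      CU * εY * Q ^ 2 * (Cs * Real.pi) := by
    rw [← integral_finsetSum _ fun x _ => hi2 x]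
    calc ∫ v : ℝ, ∑ x ∈ pairs S.N Q, w v * ‖D (smr_rest b Y) (k.K (par x.2)) x v‖ ^ 2
        ≤ ∫ v : ℝ, CU * εY * Q ^ 2 * w v := by
          refine integral_mono (integrable_finsetSum _ fun x _ => hi2 x) (hwi.const_mul _)
            fun v => ?_
          show ∑ x ∈ pairs S.N Q, w v * ‖D (smr_rest b Y) (k.K (par x.2)) x v‖ ^ 2 ≤ _
          rw [← Finset.mul_sum, mul_comm]
          rcases le_or_gt v (-ellQ S Q - s) with hv | hv
          · rw [hwc v hv]
            simp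
          · exact mul_le_mul_of_nonneg_right (hU _ _ hεY0.le hY Q v hv.le) (hw0 v)
      _ = CU * εY * Q ^ 2 * ∫ v, w v := integral_const_mul _ _
      _ ≤ _ := mul_le_mul_of_nonneg_left hwint (by positivity)
  have hnn1 : ∀ x, 0 ≤ ∫ v : ℝ, w v * ‖D (smr_cut b Y) (k.K (par x.2)) x v‖ ^ 2 := fun x =>
    integral_nonneg fun v => mul_nonneg (hw0 v) (by positivity)
  have hnn2 : ∀ x, 0 ≤ ∫ v : ℝ, w v * ‖D (smr_rest b Y) (k.K (par x.2)) x v‖ ^ 2 := fun x =>
    integral_nonneg fun v => mul_nonneg (hw0 v) (by positivity)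
  calc ∑ x ∈ (pairs S.N Q).filter (fun x => Q < 2 * x.q),
        ∫ u in Set.Ioi (0 : ℝ), ‖D b (k.K (par x.2)) x (u - ell S x - s)‖ ^ 2 / (1 + u ^ 2)
      ≤ ∑ x ∈ (pairs S.N Q).filter (fun x => Q < 2 * x.q),
        (2 * (∫ v : ℝ, w v * ‖D (smr_cut b Y) (k.K (par x.2)) x v‖ ^ 2) +
          2 * ∫ v : ℝ, w v * ‖D (smr_rest b Y) (k.K (par x.2)) x v‖ ^ 2) :=
        Finset.sum_le_sum hx
    _ ≤ ∑ x ∈ pairs S.N Q,
        (2 * (∫ v : ℝ, w v * ‖D (smr_cut b Y) (k.K (par x.2)) x v‖ ^ 2) +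
          2 * ∫ v : ℝ, w v * ‖D (smr_rest b Y) (k.K (par x.2)) x v‖ ^ 2) :=
        Finset.sum_le_sum_of_subset_of_nonneg (Finset.filter_subset _ _) fun x _ _ => by
          have h1 := hnn1 x
          have h2 := hnn2 x
          positivity
    _ = 2 * (∑ x ∈ pairs S.N Q, ∫ v : ℝ, w v * ‖D (smr_cut b Y) (k.K (par x.2)) x v‖ ^ 2) +
          2 * ∑ x ∈ pairs S.N Q, ∫ v : ℝ, w v * ‖D (smr_rest b Y) (k.K (par x.2)) x v‖ ^ 2 := by
        rw [Finset.sum_add_distrib, Finset.mul_sum, Finset.mul_sum]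
    _ ≤ 2 * (Q ^ 2 * (Cs * CY * ∫ v : ℝ,
        min 1 (Real.exp (k.κ * v)) * (1 / (1 + (v + ellQ S Q) ^ 2)))) +
          2 * (CU * εY * Q ^ 2 * (Cs * Real.pi)) := by
        linarith
    _ ≤ ε / 2 * Q ^ 2 + ε / 2 * Q ^ 2 := by
        refine add_le_add ?_ ?_
        · have h1 := mul_le_mul_of_nonneg_right hsmall (by positivity : (0 : ℝ) ≤ (Q : ℝ) ^ 2)
          refine le_trans (le_of_eq ?_) h1
          ring
        · have h1 : 2 * (CU * εY * (Cs * Real.pi)) ≤ ε / 2 := by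
            have h2 : εY * (4 * Cs * (CU + 1) * Real.pi) = ε := by
              rw [hεY]
              field_simp
            have h3 : 0 < εY * Cs * Real.pi := by positivity
            nlinarith
          have h2 := mul_le_mul_of_nonneg_right h1 (by positivity : (0 : ℝ) ≤ (Q : ℝ) ^ 2)
          refine le_trans (le_of_eq ?_) h2
          ring
    _ = ε * Q ^ 2 := by ring

/-- SMR -/
theorem smallR_D_pr {S : Sys m} (hm1 : 1 ≤ m) (hm : m ≤ 4) (k : Kers S) {b : ℕ → ℂ} {Cb : ℝ}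
    (hb : RSB b Cb) (hs : Summable fun n : ℕ => ‖b n‖ ^ 2 / n) :
    SmallR S (fun x u => D b (k.K (par x.2)) x u) := by
  classical
  intro s hs0 ε hε
  obtain ⟨Q₁, hQ₁⟩ := smr_block hm1 hm k hb hs hs0 (ε := ε / 4) (by positivity)
  set G : Ix → ℝ := fun x => ∫ u in Set.Ioi (0 : ℝ),
    ‖D b (k.K (par x.2)) x (u - ell S x - s)‖ ^ 2 / (1 + u ^ 2) with hG
  have hG0 : ∀ x, 0 ≤ G x := fun x => setIntegral_nonneg measurableSet_Ioi fun u _ => by
    positivity
  set M : ℝ := ∑ x ∈ pairs S.N Q₁, G x with hM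
  have hM0 : 0 ≤ M := Finset.sum_nonneg fun x _ => hG0 x
  have hmain : ∀ Q : ℕ, ∑ x ∈ pairs S.N Q, G x ≤ ε / 2 * Q ^ 2 + M := by
    intro Q
    induction Q using Nat.strong_induction_on with
    | _ Q ih =>
      rcases le_or_gt Q Q₁ with h0 | h0
      · have h1 : ∑ x ∈ pairs S.N Q, G x ≤ M := by
          refine Finset.sum_le_sum_of_subset_of_nonneg (fun x hx => ?_) fun x _ _ => hG0 x
          obtain ⟨h3, h4, h5⟩ := msw_mem.mp hx
          exact msw_mem.mpr ⟨by omega, h4, h5⟩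
        have h2 : 0 ≤ ε / 2 * (Q : ℝ) ^ 2 := by positivity
        linarith
      · rw [← Finset.sum_filter_add_sum_filter_not (pairs S.N Q) (fun x => Q < 2 * x.q)]
        have h1 := hQ₁ Q h0.le
        have h2 : ∑ x ∈ (pairs S.N Q).filter (fun x => ¬ Q < 2 * x.q), G x ≤
            ∑ x ∈ pairs S.N (Q / 2), G x := by
          refine Finset.sum_le_sum_of_subset_of_nonneg (fun x hx => ?_) fun x _ _ => hG0 x
          obtain ⟨hx1, hx2⟩ := Finset.mem_filter.mp hx
          obtain ⟨h3, h4, h5⟩ := msw_mem.mp hx1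
          have h6 : x.q = x.1 + 2 := rfl
          exact msw_mem.mpr ⟨by omega, h4, h5⟩
        have h3 := ih (Q / 2) (by omega)
        have h4 : ((Q / 2 : ℕ) : ℝ) ≤ (Q : ℝ) / 2 := Nat.cast_div_le
        have h5 : ((Q / 2 : ℕ) : ℝ) ^ 2 ≤ ((Q : ℝ) / 2) ^ 2 :=
          pow_le_pow_left₀ (Nat.cast_nonneg _) h4 2
        have h6 : ε / 2 * ((Q / 2 : ℕ) : ℝ) ^ 2 ≤ ε / 2 * ((Q : ℝ) / 2) ^ 2 :=
          mul_le_mul_of_nonneg_left h5 (by positivity)
        have h7 : 0 ≤ ε * (Q : ℝ) ^ 2 := by positivity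
        have h8 : ∑ x ∈ (pairs S.N Q).filter (fun x => Q < 2 * x.q), G x ≤ ε / 4 * Q ^ 2 := h1
        nlinarith
  obtain ⟨Q₂, hQ₂⟩ := exists_nat_gt (2 * M / ε)
  refine ⟨Q₂ + 1, fun Q hQ => ?_⟩
  change ∑ x ∈ pairs S.N Q, G x ≤ ε * Q ^ 2
  refine (hmain Q).trans ?_
  have h1 : (Q₂ : ℝ) ≤ Q := by exact_mod_cast (by omega : Q₂ ≤ Q)
  have h2 : (1 : ℝ) ≤ Q := by exact_mod_cast (by omega : 1 ≤ Q)
  have h3 : 2 * M / ε < Q := hQ₂.trans_le h1
  rw [div_lt_iff₀ hε] at h3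
  have h4 : (Q : ℝ) * ε ≤ Q ^ 2 * ε := by
    refine mul_le_mul_of_nonneg_right ?_ hε.le
    nlinarith
  linarith

end Pool.Agent.G5
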