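import Pool.Agent.Lib_helper44.G5.Defs
import Pool.Agent.Lib_helper44.G5.LAM

/-!
# Block ZG: the Gamma factor is analytic and not identically zero to the right of the line
-/

namespace Pool.Agent.G5

open Complex MeasureTheory Filter Topology

open Pool.Agent.G4

variable {m : ℕ}

theorem zg_exp_int {b : ℝ} (hb : 0 < b) : Integrable fun u : ℝ => Real.exp (-(b * |u|)) := by
  have h2 := lam_exp_int.comp_mul_left' hb.ne'
  refine h2.congr (Eventually.of_forall fun u => ?_)
  simp only [abs_mul, abs_of_pos hb]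

/-- the transform of a kernel is differentiable -/
theorem zg_diff {κ : ℝ} (hκ : 0 < κ) {K : ℝ → ℂ} (hK : IsKer κ K) {z : ℂ} (hz : 0 < z.re) :
    DifferentiableAt ℂ (fun w : ℂ => ∫ u : ℝ, K u * cexp (w * u)) z := by
  obtain ⟨C₁, hC₁⟩ := hK.le (z.re + 1) (by linarith)
  obtain ⟨C₂, hC₂⟩ := hK.le 0 (by linarith)
  have hC₁0 : 0 ≤ C₁ := by
    have := (norm_nonneg _).trans (hC₁ 0)
    simpa using this
  have hC₂0 : 0 ≤ C₂ := by
    have := (norm_nonneg _).trans (hC₂ 0)
    simpa using this
  have hc := hK.cont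
  set c : ℝ := min (z.re / 4) (1 / 4) with hcdef
  have hc0 : 0 < c := by positivity
  have hc1 : c ≤ z.re / 4 := min_le_left _ _
  have hc2 : c ≤ 1 / 4 := min_le_right _ _
  have hw : ∀ w ∈ Metric.ball z c, 3 * c ≤ w.re ∧ w.re ≤ z.re + c := by
    intro w hw
    have h1 : |w.re - z.re| ≤ ‖w - z‖ := by
      rw [← Complex.sub_re]
      exact Complex.abs_re_le_norm _
    have h2 : ‖w - z‖ < c := by simpa [dist_eq_norm] using hw
    have h3 := abs_le.1 (h1.trans h2.le)
    constructor <;> linarith [h3.1, h3.2]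
  have hI : ∀ w ∈ Metric.ball z c, ∀ u : ℝ,
      ‖K u * cexp (w * u)‖ ≤ (C₁ + C₂) * Real.exp (-(3 * c * |u|)) := by
    intro w hw' u
    obtain ⟨h1, h2⟩ := hw w hw'
    have e : (w * (u : ℂ)).re = w.re * u := by simp
    rw [norm_mul, Complex.norm_exp, e]
    rcases le_or_gt 0 u with hu | hu
    · rw [abs_of_nonneg hu]
      calc ‖K u‖ * Real.exp (w.re * u) ≤ (C₁ * Real.exp (-(z.re + 1) * u)) * Real.exp (w.re * u) :=
            mul_le_mul_of_nonneg_right (hC₁ u) (Real.exp_pos _).le
        _ = C₁ * Real.exp (-(z.re + 1) * u + w.re * u) := by rw [mul_assoc, ← Real.exp_add]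
        _ ≤ C₁ * Real.exp (-(3 * c * u)) := by
            refine mul_le_mul_of_nonneg_left (Real.exp_le_exp.mpr ?_) hC₁0
            nlinarith [mul_nonneg (by linarith : (0 : ℝ) ≤ z.re + c - w.re) hu,
              mul_nonneg (by linarith : (0 : ℝ) ≤ 1 - 4 * c) hu]
        _ ≤ (C₁ + C₂) * Real.exp (-(3 * c * u)) :=
            mul_le_mul_of_nonneg_right (by linarith) (Real.exp_pos _).le
    · rw [abs_of_neg hu]
      calc ‖K u‖ * Real.exp (w.re * u) ≤ (C₂ * Real.exp (-0 * u)) * Real.exp (w.re * u) :=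
            mul_le_mul_of_nonneg_right (hC₂ u) (Real.exp_pos _).le
        _ = C₂ * Real.exp (w.re * u) := by simp
        _ ≤ C₂ * Real.exp (-(3 * c * -u)) := by
            refine mul_le_mul_of_nonneg_left (Real.exp_le_exp.mpr ?_) hC₂0
            nlinarith [mul_nonneg (by linarith : (0 : ℝ) ≤ w.re - 3 * c) (by linarith : 0 ≤ -u)]
        _ ≤ (C₁ + C₂) * Real.exp (-(3 * c * -u)) :=
            mul_le_mul_of_nonneg_right (by linarith) (Real.exp_pos _).le
  have hb : Integrable fun u : ℝ => (C₁ + C₂) / c * Real.exp (-(2 * c * |u|)) :=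
    (zg_exp_int (by positivity : 0 < 2 * c)).const_mul _
  have hb3 : Integrable fun u : ℝ => (C₁ + C₂) * Real.exp (-(3 * c * |u|)) :=
    (zg_exp_int (by positivity : 0 < 3 * c)).const_mul _
  have h := hasDerivAt_integral_of_dominated_loc_of_deriv_le (μ := volume)
    (F := fun (w : ℂ) (u : ℝ) => K u * cexp (w * u))
    (F' := fun (w : ℂ) (u : ℝ) => K u * (cexp (w * u) * u)) (x₀ := z)
    (s := Metric.ball z c) (bound := fun u => (C₁ + C₂) / c * Real.exp (-(2 * c * |u|)))
    (Metric.ball_mem_nhds z hc0) ?_ ?_ ?_ ?_ ?_ ?_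
  · exact h.2.differentiableAt
  · exact Eventually.of_forall fun w => (hc.mul (by fun_prop)).aestronglyMeasurable
  · refine Integrable.mono' hb3 (hc.mul (by fun_prop)).aestronglyMeasurable ?_
    exact Eventually.of_forall fun u => hI z (Metric.mem_ball_self hc0) u
  · exact (hc.mul (by fun_prop)).aestronglyMeasurable
  · refine Eventually.of_forall fun u w hw' => ?_
    rw [← mul_assoc, norm_mul]
    have h4 : ‖(u : ℂ)‖ ≤ 1 / c * Real.exp (c * |u|) := by
      rw [Complex.norm_real, Real.norm_eq_abs]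
      have h5 := Real.add_one_le_exp (c * |u|)
      rw [one_div, inv_mul_eq_div, le_div_iff₀ hc0]
      linarith
    refine (mul_le_mul (hI w hw' u) h4 (norm_nonneg _) (by positivity)).trans (le_of_eq ?_)
    have : -(2 * c * |u|) = -(3 * c * |u|) + c * |u| := by ring
    rw [this, Real.exp_add]
    ring
  · exact hb
  · refine Eventually.of_forall fun u w _ => ?_
    refine HasDerivAt.const_mul (K u) ?_
    have := ((hasDerivAt_id w).mul_const (u : ℂ)).cexp
    simpa using this

/-- ZG: the Gamma factor -/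
theorem gam_analytic_pr {S : Sys m} (k : Kers S) (δ : Fin 2) :
    AnalyticOnNhd ℂ (S.gam δ) {s | 1 / 2 < s.re} ∧ ∃ s : ℂ, 1 / 2 < s.re ∧ S.gam δ s ≠ 0 := by
  constructor
  · have ho : IsOpen {s : ℂ | 1 / 2 < s.re} := isOpen_lt continuous_const Complex.continuous_re
    refine DifferentiableOn.analyticOnNhd ?_ ho
    have hd : DifferentiableOn ℂ (fun s : ℂ => ∫ u : ℝ, k.K δ u * cexp ((s - 1 / 2) * u))
        {s | 1 / 2 < s.re} := by
      intro s hs
      have hs' : 1 / 2 < s.re := hs
      have hz : 0 < (s - 1 / 2).re := by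
        rw [Complex.sub_re]
        norm_num
        linarith
      have h1 : DifferentiableAt ℂ (fun s : ℂ => ∫ u : ℝ, k.K δ u * cexp ((s - 1 / 2) * u)) s :=
        DifferentiableAt.comp (g := fun w : ℂ => ∫ u : ℝ, k.K δ u * cexp (w * u))
          (f := fun s : ℂ => s - 1 / 2) s (zg_diff k.κ_pos (k.isKer δ) hz) (by fun_prop)
      exact h1.differentiableWithinAt
    refine hd.congr ?_
    intro s hs
    have hs' : 1 / 2 < s.re := hs
    have hz : -k.κ < (s - 1 / 2).re := by
      rw [Complex.sub_re]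
      norm_num
      linarith [k.κ_pos]
    rw [k.mellin δ _ hz]
    congr 1
    ring
  · obtain ⟨t, ht⟩ := Infinite.exists_notMem_finset S.Z
    obtain ⟨g, hg, h⟩ := S.glow t t (by
      intro t' ht'
      rw [Set.Icc_self, Set.mem_singleton_iff] at ht'
      rw [ht']
      exact ht)
    refine ⟨1 / 2 + (1 : ℝ) + t * I, ?_, ?_⟩
    · simp
    · have := h δ 1 (by simp) t (by simp)
      intro h0
      rw [h0, norm_zero] at this
      linarith

end Pool.Agent.G5
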